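import Mathlib

open Subgroup

namespace Pool.Agent.Results.MP_1cb079_al.NilpotentWCL

universe u

/-- `G` is almost torsion-free: `{g | g ^ n = 1}` is finite for every `n ≥ 1`. -/
def AlmostTorsionFree (G : Type u) [Group G] : Prop :=
  ∀ n : ℕ, 0 < n → {g : G | g ^ n = 1}.Finite

/-- The weak cancellation law: for every `n ≥ 1` and every `y` the equation `x ^ n = y` has only
finitely many solutions. -/
def WCL (G : Type u) [Group G] : Prop :=
  ∀ n : ℕ, 0 < n → ∀ y : G, {x : G | x ^ n = y}.Finite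

section aux

variable {K : Type u} [Group K]

/-- the lower central series -/
abbrev L (K : Type u) [Group K] (k : ℕ) : Subgroup K := (⊤ : Subgroup K).lowerCentralSeries k

theorem comm_mem {k : ℕ} {g : K} (hg : g ∈ L K k) (b : K) : g * b * g⁻¹ * b⁻¹ ∈ L K (k + 1) := by
  rw [Subgroup.mem_lowerCentralSeries_succ_iff]
  exact subset_closure ⟨g, hg, b, mem_top b, rfl⟩

/-- the projection modulo the `(k+2)`-nd term -/
abbrev π (K : Type u) [Group K] (k : ℕ) : K →* K ⧸ L K (k + 2) := QuotientGroup.mk' (L K (k + 2))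

theorem central {k : ℕ} {g : K} (hg : g ∈ L K (k + 1)) (q : K ⧸ L K (k + 2)) :
    π K k g * q = q * π K k g := by
  obtain ⟨b, rfl⟩ := QuotientGroup.mk'_surjective _ q
  have h1 : π K k (g * b * g⁻¹ * b⁻¹) = 1 := (QuotientGroup.eq_one_iff _).mpr (comm_mem hg b)
  rw [map_mul, map_mul, map_mul, map_inv, map_inv, mul_inv_eq_one, mul_inv_eq_iff_eq_mul] at h1
  exact h1

/-- `g ↦ [g, b]` modulo the `(k+2)`-nd term -/
def cm (k : ℕ) (b g : K) : K ⧸ L K (k + 2) := π K k (g * b * g⁻¹ * b⁻¹)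

theorem cm_mul {k : ℕ} (b : K) {g h : K} (hh : h ∈ L K k) :
    cm k b (g * h) = cm k b g * cm k b h := by
  have e : g * h * b * (g * h)⁻¹ * b⁻¹ = g * (h * b * h⁻¹ * b⁻¹) * g⁻¹ * (g * b * g⁻¹ * b⁻¹) := by
    group
  have h1 := central (comm_mem hh b) (π K k g)
  unfold cm
  rw [e, map_mul, map_mul, map_mul, ← h1, mul_assoc (π K k (h * b * h⁻¹ * b⁻¹)), ← map_mul,
    mul_inv_cancel, map_one, mul_one]
  exact central (comm_mem hh b) _

theorem cm_one {k : ℕ} (b : K) : cm k b 1 = 1 := by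
  have h : (1 : K) * b * 1⁻¹ * b⁻¹ = 1 := by group
  rw [cm, h, map_one]

theorem cm_comm {k : ℕ} (b : K) {g : K} (hg : g ∈ L K k) (q : K ⧸ L K (k + 2)) :
    Commute (cm k b g) q := central (comm_mem hg b) q

theorem cm_pow {k : ℕ} (b : K) {g : K} (hg : g ∈ L K k) (m : ℕ) :
    cm k b (g ^ m) = (cm k b g) ^ m := by
  induction m with
  | zero => rw [pow_zero, pow_zero, cm_one]
  | succ m ih => rw [pow_succ, cm_mul b hg, ih, pow_succ]

/-- if all `[g, b]`, `g` in the `k`-th term, have trivial `n`-th power modulo the `(k+2)`-nd term,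
then so have all elements of the `(k+1)`-st term -/
theorem pow_mem_of {k n : ℕ} (h : ∀ g ∈ L K k, ∀ b, (cm k b g) ^ n = 1) :
    ∀ g ∈ L K (k + 1), g ^ n ∈ L K (k + 2) := by
  have main : ∀ g ∈ L K (k + 1), (π K k g) ^ n = 1 := by
    intro g hg
    rw [Subgroup.mem_lowerCentralSeries_succ_iff] at hg
    induction hg using closure_induction with
    | mem x hx =>
      obtain ⟨p, hp, q, -, rfl⟩ := hx
      exact h p hp q
    | one => rw [map_one, one_pow]
    | mul x y hx hy ihx ihy =>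
      have hc : Commute (π K k x) (π K k y) :=
        central ((Subgroup.mem_lowerCentralSeries_succ_iff _ _ _).mpr hx) _
      rw [map_mul, hc.mul_pow, ihx, ihy, one_mul]
    | inv x hx ih => rw [map_inv, inv_pow, ih, inv_one]
  intro g hg
  have h1 := main g hg
  rw [← map_pow] at h1
  exact (QuotientGroup.eq_one_iff _).mp h1

theorem step {n : ℕ} (X : Set K) (hX : closure X = ⊤) (hc : ∀ x ∈ X, x ^ n ∈ center K) (k : ℕ) :
    ∀ g ∈ L K (k + 1), g ^ n ∈ L K (k + 2) := by
  induction k with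
  | zero =>
    apply pow_mem_of
    intro g hg' b
    clear hg'
    have hg : g ∈ closure X := by rw [hX]; exact mem_top g
    have hall : ∀ x : K, x ∈ L K 0 := fun x => mem_top x
    induction hg using closure_induction with
    | mem x hx =>
      rw [← cm_pow b (hall x)]
      have h1 : x ^ n * b * (x ^ n)⁻¹ * b⁻¹ = 1 := by
        rw [(mem_center_iff.mp (hc x hx) b).symm]
        group
      unfold cm
      rw [h1, map_one]
    | one => rw [cm_one, one_pow]
    | mul x y hx hy ihx ihy =>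
      rw [cm_mul b (hall y), (cm_comm b (hall x) _).mul_pow, ihx, ihy, one_mul]
    | inv x hx ih =>
      have h1 : cm 0 b x⁻¹ = (cm 0 b x)⁻¹ := by
        rw [eq_inv_iff_mul_eq_one, ← cm_mul b (hall x), inv_mul_cancel, cm_one]
      rw [h1, inv_pow, ih, inv_one]
  | succ k ih =>
    apply pow_mem_of
    intro g hg b
    rw [← cm_pow b hg]
    exact (QuotientGroup.eq_one_iff _).mpr (comm_mem (ih g hg) b)

theorem exponent {n : ℕ} [Group.IsNilpotent K] (X : Set K) (hX : closure X = ⊤)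
    (hc : ∀ x ∈ X, x ^ n ∈ center K) : ∃ c : ℕ, ∀ g ∈ L K 1, g ^ (n ^ c) = 1 := by
  obtain ⟨c, hcc⟩ := Subgroup.nilpotent_iff_lowerCentralSeries.mp (inferInstance : Group.IsNilpotent K)
  have h1 : ∀ j : ℕ, ∀ g ∈ L K 1, g ^ (n ^ j) ∈ L K (j + 1) := by
    intro j
    induction j with
    | zero => intro g hg; simpa using hg
    | succ j ih =>
      intro g hg
      rw [pow_succ n j, pow_mul]
      exact step X hX hc j _ (ih g hg)
  refine ⟨c, fun g hg => ?_⟩
  have h2 := Subgroup.lowerCentralSeries_antitone (⊤ : Subgroup K) (Nat.le_succ c) (h1 c g hg)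
  rw [hcc] at h2
  exact mem_bot.mp h2

theorem exponent2 {n : ℕ} [Group.IsNilpotent K] (X : Set K) (hX : closure X = ⊤)
    (hc : ∀ x ∈ X, x ^ n ∈ center K) : ∃ c : ℕ, ∀ a b : K, a ^ n = b ^ n →
      (a * b⁻¹) ^ (n * n ^ c) = 1 := by
  obtain ⟨c, hc⟩ := exponent X hX hc
  refine ⟨c, fun a b hab => ?_⟩
  have h0 : (a * b⁻¹) ^ n ∈ commutator K := by
    rw [← Abelianization.ker_of, MonoidHom.mem_ker, map_pow, map_mul,
      map_inv, mul_pow, inv_pow, ← map_pow, ← map_pow, hab, mul_inv_cancel]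
  have h1 : (a * b⁻¹) ^ n ∈ L K 1 := by
    rw [← top_lowerCentralSeries_one] at h0
    exact h0
  rw [pow_mul]
  exact hc _ h1

theorem exponent3 {n : ℕ} {H : Type u} [Group H] [Group.IsNilpotent H] (ι : H →* K)
    (hι : Function.Injective ι) (y : K) (X : Set H) (hX : closure X = ⊤)
    (hY : ∀ x ∈ X, ι x ^ n = y) :
    ∃ c : ℕ, ∀ a ∈ X, ∀ b ∈ X, (ι a * (ι b)⁻¹) ^ (n * n ^ c) = 1 := by
  have hycomm : ∀ g : H, ι g * y = y * ι g := by
    intro g
    have hg : g ∈ closure X := by rw [hX]; exact mem_top g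
    induction hg using closure_induction with
    | mem x hx => rw [← hY x hx, ← pow_succ', ← pow_succ]
    | one => rw [map_one, one_mul, mul_one]
    | mul a b _ _ iha ihb => rw [map_mul, mul_assoc, ihb, ← mul_assoc, iha, mul_assoc]
    | inv a _ ih => rw [map_inv, inv_mul_eq_iff_eq_mul, ← mul_assoc, ih, mul_inv_cancel_right]
  have h1 : ∀ x ∈ X, x ^ n ∈ center H := by
    intro x hx
    rw [mem_center_iff]
    intro g
    apply hι
    rw [map_mul, map_mul, map_pow, hY _ hx]
    exact hycomm g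
  obtain ⟨c, hc⟩ := exponent2 X hX h1
  refine ⟨c, fun a ha b hb => ?_⟩
  have h3 : a ^ n = b ^ n := by
    apply hι
    rw [map_pow, map_pow, hY a ha, hY b hb]
  rw [← map_inv, ← map_mul, ← map_pow, hc a b h3, map_one]

end aux

/-- Every nilpotent almost torsion-free group satisfies the weak cancellation law. -/
theorem result (G : Type u) [Group G] [Group.IsNilpotent G] (hG : AlmostTorsionFree G) :
    WCL G := by
  intro n hn y
  by_cases hne : ∃ x0 : G, x0 ^ n = y
  · obtain ⟨x0, hx0⟩ := hne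
    have hY0 : ∀ x ∈ ((↑) ⁻¹' {x : G | x ^ n = y} : Set (closure {x : G | x ^ n = y})),
        (closure {x : G | x ^ n = y}).subtype x ^ n = y := fun x hx => hx
    obtain ⟨c, hc⟩ := exponent3 (closure {x : G | x ^ n = y}).subtype
      (subtype_injective _) y _ (closure_closure_coe_preimage) hY0
    have hfin := hG (n * n ^ c) (by positivity)
    have hfin2 : ((fun g => g * x0) '' {g : G | g ^ (n * n ^ c) = 1}).Finite := hfin.image _
    refine hfin2.subset ?_
    intro x hx
    have hx1 : x ^ n = y := hx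
    exact ⟨x * x0⁻¹, hc ⟨x, subset_closure hx⟩ hx1 ⟨x0, subset_closure hx0⟩ hx0, by simp⟩
  · have : {x : G | x ^ n = y} = ∅ := Set.eq_empty_iff_forall_notMem.mpr fun x h => hne ⟨x, h⟩
    rw [this]
    exact Set.finite_empty

end Pool.Agent.Results.MP_1cb079_al.NilpotentWCL
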